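import Mathlib

/-!
# A bounded metric-functional on every infinite finitely generated group (MP_25f285_al, Q1)

Let `G` be an infinite group generated by the finite symmetric set `S`, with word length `ℓ`.
Choose `x k` with `ℓ (x k) = N k := k (k + 1) (2 k + 3)`, and let `w k := (k + 1) (k + 2) (2 k + 1)`.
Give every `h` the cost `2 ℓ h` and, if `h` or `h⁻¹` lies in the ball of radius `k` about `x k`,
also the cost `w k`. The length `‖g‖` is the least total cost of a factorisation of `g`. A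
factorisation of cost `< w k` uses only factors whose ratio cost / length is at least
`(k + 1) / k`, and `(k + 1) (N k - k) = k (w k)`, so `‖g‖ = w k` for ALL `g` in the ball of
radius `k` about `x k`. So the functionals of the points `(x k)⁻¹` converge to the zero function.
-/

set_option autoImplicit false

namespace Pool.Agent.Results.MP_25f285_al.ZeroFunctional

open Filter Topology

/-- The Cayley metric of a set `S`: the least length of a word in `S` with product `x⁻¹ y`. -/
noncomputable def wordDist {G : Type*} [Group G] (S : Set G) (x y : G) : ℕ :=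
  sInf {n | ∃ l : List G, l.length = n ∧ (∀ s ∈ l, s ∈ S) ∧ l.prod = x⁻¹ * y}

/-- `d` is an integer valued, left-invariant, proper metric on the group `G`. -/
structure IsProperIntegerMetric {G : Type*} [Group G] (d : G → G → ℝ) : Prop where
  dist_self : ∀ x, d x x = 0
  eq_of_dist_eq_zero : ∀ x y, d x y = 0 → x = y
  symm : ∀ x y, d x y = d y x
  triangle : ∀ x y z, d x z ≤ d x y + d y z
  integer : ∀ x y, ∃ n : ℤ, d x y = n
  left_invariant : ∀ g x y, d (g * x) (g * y) = d x y
  proper : ∀ (x : G) (r : ℝ), {y | d x y ≤ r}.Finite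

/-- The function `b_x(y) = d(x,y) - d(x,e)`. -/
def b {G : Type*} [Group G] (d : G → G → ℝ) (x y : G) : ℝ := d x y - d x 1

/-- The boundary `∂(G,d)`: the pointwise limits of `b_{x_n}` along sequences `(x_n)` which
eventually leave every finite subset of `G`. Its elements are the metric-functionals. -/
def boundary {G : Type*} [Group G] (d : G → G → ℝ) : Set (G → ℝ) :=
  {f | ∃ x : ℕ → G, Tendsto x atTop cofinite ∧
    ∀ y, Tendsto (fun n => b d (x n) y) atTop (𝓝 (f y))}

section

variable {G : Type*} [Group G] {S : Set G}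

/-- Every element is a product of elements of a symmetric generating set. -/
theorem exists_word (hs : ∀ s ∈ S, s⁻¹ ∈ S) (hg : Subgroup.closure S = ⊤) (g : G) :
    ∃ l : List G, (∀ s ∈ l, s ∈ S) ∧ l.prod = g := by
  have h : g ∈ Subgroup.closure S := by rw [hg]; trivial
  rw [← Subgroup.mem_toSubmonoid, Subgroup.closure_toSubmonoid] at h
  obtain ⟨l, hl, hp⟩ := Submonoid.exists_list_of_mem_closure h
  refine ⟨l, fun s hsl => ?_, hp⟩
  rcases hl s hsl with h1 | h1
  · exact h1
  · have := hs _ (Set.mem_inv.1 h1)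
    rwa [inv_inv] at this

/-- Word length. -/
noncomputable def len (S : Set G) (g : G) : ℕ :=
  sInf {n | ∃ l : List G, l.length = n ∧ (∀ s ∈ l, s ∈ S) ∧ l.prod = g}

theorem wordDist_eq (x y : G) : wordDist S x y = len S (x⁻¹ * y) := rfl

theorem len_spec (hs : ∀ s ∈ S, s⁻¹ ∈ S) (hg : Subgroup.closure S = ⊤) (g : G) :
    ∃ l : List G, l.length = len S g ∧ (∀ s ∈ l, s ∈ S) ∧ l.prod = g := by
  obtain ⟨l, h1, h2⟩ := exists_word hs hg g
  exact Nat.sInf_mem (s := {n | ∃ l : List G, l.length = n ∧ (∀ s ∈ l, s ∈ S) ∧ l.prod = g})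
    ⟨l.length, l, rfl, h1, h2⟩

theorem len_le {l : List G} (h : ∀ s ∈ l, s ∈ S) : len S l.prod ≤ l.length :=
  Nat.sInf_le ⟨l, rfl, h, rfl⟩

theorem len_one : len S (1 : G) = 0 := by
  have := len_le (S := S) (l := ([] : List G)) (by simp)
  simpa using this

theorem len_eq_zero (hs : ∀ s ∈ S, s⁻¹ ∈ S) (hg : Subgroup.closure S = ⊤) {g : G}
    (h : len S g = 0) : g = 1 := by
  obtain ⟨l, h1, -, h3⟩ := len_spec hs hg g
  rw [h, List.length_eq_zero_iff] at h1
  rw [← h3, h1, List.prod_nil]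

theorem len_mul (hs : ∀ s ∈ S, s⁻¹ ∈ S) (hg : Subgroup.closure S = ⊤) (g h : G) :
    len S (g * h) ≤ len S g + len S h := by
  obtain ⟨l, h1, h2, h3⟩ := len_spec hs hg g
  obtain ⟨l', h1', h2', h3'⟩ := len_spec hs hg h
  have := len_le (S := S) (l := l ++ l') (by
    intro s hsl
    rcases List.mem_append.1 hsl with h | h
    · exact h2 s h
    · exact h2' s h)
  rwa [List.prod_append, List.length_append, h1, h1', h3, h3'] at this

theorem len_inv_le (hs : ∀ s ∈ S, s⁻¹ ∈ S) (hg : Subgroup.closure S = ⊤) (g : G) :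
    len S g⁻¹ ≤ len S g := by
  obtain ⟨l, h1, h2, h3⟩ := len_spec hs hg g
  have := len_le (S := S) (l := (l.map fun x => x⁻¹).reverse) (by
    intro s hsl
    rw [List.mem_reverse, List.mem_map] at hsl
    obtain ⟨a, ha, rfl⟩ := hsl
    exact hs a (h2 a ha))
  rwa [← List.prod_inv_reverse, List.length_reverse, List.length_map, h1, h3] at this

theorem len_inv (hs : ∀ s ∈ S, s⁻¹ ∈ S) (hg : Subgroup.closure S = ⊤) (g : G) :
    len S g⁻¹ = len S g := by
  refine le_antisymm (len_inv_le hs hg g) ?_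
  have := len_inv_le hs hg g⁻¹
  rwa [inv_inv] at this

theorem finite_ball (hf : S.Finite) (hs : ∀ s ∈ S, s⁻¹ ∈ S) (hg : Subgroup.closure S = ⊤)
    (n : ℕ) : {g : G | len S g ≤ n}.Finite := by
  have : {g : G | len S g ≤ n} ⊆
      (fun l : List G => l.prod) '' {l : List G | l.length ≤ n ∧ ∀ s ∈ l, s ∈ S} := by
    intro g hgn
    obtain ⟨l, h1, h2, h3⟩ := len_spec hs hg g
    exact ⟨l, ⟨h1.trans_le hgn, h2⟩, h3⟩
  refine Set.Finite.subset (Set.Finite.image _ ?_) this
  have := hf.to_subtype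
  have h4 : {l : List G | l.length ≤ n ∧ ∀ s ∈ l, s ∈ S} ⊆
      (fun l : List S => l.map Subtype.val) '' {l : List S | l.length ≤ n} := by
    rintro l ⟨h1, h2⟩
    refine ⟨l.attach.map fun a => ⟨a.1, h2 a.1 a.2⟩, ?_, ?_⟩
    · simpa using h1
    · simp [List.map_map, Function.comp_def]
  exact Set.Finite.subset (Set.Finite.image _ (List.finite_length_le S n)) h4

theorem exists_len_eq [Infinite G] (hf : S.Finite) (hs : ∀ s ∈ S, s⁻¹ ∈ S)
    (hg : Subgroup.closure S = ⊤) (n : ℕ) : ∃ g : G, len S g = n := by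
  obtain ⟨g, hgn⟩ := (finite_ball hf hs hg n).exists_notMem
  have hlt : n < len S g := not_le.1 hgn
  obtain ⟨l, h1, h2, h3⟩ := len_spec hs hg g
  refine ⟨(l.take n).prod, le_antisymm ?_ ?_⟩
  · refine (len_le fun s h => h2 s (List.mem_of_mem_take h)).trans ?_
    rw [List.length_take]
    exact min_le_left _ _
  · have h4 : len S (l.drop n).prod ≤ l.length - n := by
      refine (len_le fun s h => h2 s (List.mem_of_mem_drop h)).trans ?_
      rw [List.length_drop]
    have h5 := len_mul hs hg (l.take n).prod (l.drop n).prod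
    rw [← List.prod_append, List.take_append_drop, h3] at h5
    omega

end

/-- The length of the centre of the `k`-th ball. -/
def NN (k : ℕ) : ℕ := k * (k + 1) * (2 * k + 3)

/-- The cost of the elements of the `k`-th ball. -/
def ww (k : ℕ) : ℕ := (k + 1) * (k + 2) * (2 * k + 1)

theorem ww_lt {j k : ℕ} (h : ww j < ww k) : j < k := by
  by_contra hjk
  have : ww k ≤ ww j := by
    unfold ww
    have hkj : k ≤ j := not_lt.1 hjk
    gcongr
  omega

section

variable {G : Type*} [Group G] (S : Set G) (x : ℕ → G)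

/-- `h` may be used as a factor at cost `c`. -/
def Cost (h : G) (c : ℕ) : Prop :=
  c = 2 * len S h ∨ ∃ k, 1 ≤ k ∧ c = ww k ∧ (len S ((x k)⁻¹ * h) ≤ k ∨ len S ((x k)⁻¹ * h⁻¹) ≤ k)

/-- `g` has a factorisation of total cost `c`. -/
def Fac (g : G) (c : ℕ) : Prop :=
  ∃ l : List (G × ℕ), (∀ p ∈ l, Cost S x p.1 p.2) ∧ (l.map Prod.fst).prod = g ∧
    (l.map Prod.snd).sum = c

/-- The length of the metric. -/
noncomputable def nrm (g : G) : ℕ := sInf {c | Fac S x g c}

variable {S x}

theorem Fac.of_cost {g : G} {c : ℕ} (h : Cost S x g c) : Fac S x g c :=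
  ⟨[(g, c)], by simpa using h, by simp, by simp⟩

theorem Fac.mul {g h : G} {c d : ℕ} (h1 : Fac S x g c) (h2 : Fac S x h d) :
    Fac S x (g * h) (c + d) := by
  obtain ⟨l, a1, a2, a3⟩ := h1
  obtain ⟨l', b1, b2, b3⟩ := h2
  refine ⟨l ++ l', ?_, ?_, ?_⟩
  · intro p hp
    rcases List.mem_append.1 hp with h | h
    · exact a1 p h
    · exact b1 p h
  · rw [List.map_append, List.prod_append, a2, b2]
  · rw [List.map_append, List.sum_append, a3, b3]

theorem Fac.one : Fac S x (1 : G) 0 := ⟨[], by simp, by simp, by simp⟩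

/-- Induction principle. -/
theorem Fac.ind {P : G → ℕ → Prop} (h1 : P 1 0)
    (h2 : ∀ h c g d, Cost S x h c → P g d → P (h * g) (c + d)) {g : G} {c : ℕ}
    (h : Fac S x g c) : P g c := by
  obtain ⟨l, a1, rfl, rfl⟩ := h
  induction l with
  | nil => simpa using h1
  | cons p l ih =>
    rw [List.map_cons, List.prod_cons, List.map_cons, List.sum_cons]
    exact h2 _ _ _ _ (a1 p (by simp)) (ih fun q hq => a1 q (by simp [hq]))

theorem Cost.inv (hs : ∀ s ∈ S, s⁻¹ ∈ S) (hg : Subgroup.closure S = ⊤) {h : G} {c : ℕ}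
    (hc : Cost S x h c) : Cost S x h⁻¹ c := by
  rcases hc with rfl | ⟨k, h1, rfl, h2⟩
  · exact Or.inl (by rw [len_inv hs hg])
  · refine Or.inr ⟨k, h1, rfl, ?_⟩
    rw [inv_inv]
    exact h2.symm

theorem Fac.inv (hs : ∀ s ∈ S, s⁻¹ ∈ S) (hg : Subgroup.closure S = ⊤) {g : G} {c : ℕ}
    (h : Fac S x g c) : Fac S x g⁻¹ c := by
  refine Fac.ind (P := fun g c => Fac S x g⁻¹ c) ?_ ?_ h
  · rw [inv_one]
    exact Fac.one
  · intro h c g d hc hd
    rw [mul_inv_rev, add_comm]
    exact hd.mul (Fac.of_cost (hc.inv hs hg))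

theorem nrm_spec (g : G) : Fac S x g (nrm S x g) :=
  Nat.sInf_mem (s := {c | Fac S x g c}) ⟨_, Fac.of_cost (Or.inl rfl)⟩

theorem nrm_le {g : G} {c : ℕ} (h : Fac S x g c) : nrm S x g ≤ c := Nat.sInf_le h

theorem len_center_le (hs : ∀ s ∈ S, s⁻¹ ∈ S) (hg : Subgroup.closure S = ⊤)
    (hx : ∀ k, len S (x k) = NN k) {k : ℕ} {h : G}
    (h2 : len S ((x k)⁻¹ * h) ≤ k ∨ len S ((x k)⁻¹ * h⁻¹) ≤ k) : len S h ≤ NN k + k := by
  rcases h2 with h2 | h2
  · have := len_mul hs hg (x k) ((x k)⁻¹ * h)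
    rw [mul_inv_cancel_left, hx] at this
    omega
  · have := len_mul hs hg (x k) ((x k)⁻¹ * h⁻¹)
    rw [mul_inv_cancel_left, hx, len_inv hs hg] at this
    omega

theorem aux1 (k : ℕ) : NN k + k ≤ ww k := by
  unfold NN ww
  nlinarith [sq_nonneg k]

theorem len_le_cost (hs : ∀ s ∈ S, s⁻¹ ∈ S) (hg : Subgroup.closure S = ⊤)
    (hx : ∀ k, len S (x k) = NN k) {h : G} {c : ℕ} (hc : Cost S x h c) : len S h ≤ c := by
  rcases hc with rfl | ⟨k, h1, rfl, h2⟩
  · omega
  · exact (len_center_le hs hg hx h2).trans (aux1 k)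

theorem len_le_fac (hs : ∀ s ∈ S, s⁻¹ ∈ S) (hg : Subgroup.closure S = ⊤)
    (hx : ∀ k, len S (x k) = NN k) {g : G} {c : ℕ} (hc : Fac S x g c) : len S g ≤ c := by
  refine Fac.ind (P := fun g c => len S g ≤ c) ?_ ?_ hc
  · rw [len_one]
  · intro h c g d h1 h2
    exact (len_mul hs hg h g).trans (add_le_add (len_le_cost hs hg hx h1) h2)

theorem aux2 {j k : ℕ} (h : j < k) : (k + 1) * (NN j + j) ≤ k * ww j := by
  have h1 : (j + 2) * (NN j + j) ≤ (j + 1) * ww j := by
    unfold NN ww
    nlinarith [sq_nonneg j]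
  have h2 : (k + 1) * (j + 1) ≤ k * (j + 2) := by nlinarith
  have h3 : (j + 1) * ((k + 1) * (NN j + j)) ≤ (j + 1) * (k * ww j) := by
    calc (j + 1) * ((k + 1) * (NN j + j)) = ((k + 1) * (j + 1)) * (NN j + j) := by ring
      _ ≤ (k * (j + 2)) * (NN j + j) := Nat.mul_le_mul_right _ h2
      _ = k * ((j + 2) * (NN j + j)) := by ring
      _ ≤ k * ((j + 1) * ww j) := Nat.mul_le_mul_left _ h1
      _ = (j + 1) * (k * ww j) := by ring
  exact Nat.le_of_mul_le_mul_left h3 (Nat.succ_pos j)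

theorem cheap_fac (hs : ∀ s ∈ S, s⁻¹ ∈ S) (hg : Subgroup.closure S = ⊤)
    (hx : ∀ k, len S (x k) = NN k) {k : ℕ} (hk : 1 ≤ k) {g : G} {c : ℕ} (hc : Fac S x g c) :
    c < ww k → (k + 1) * len S g ≤ k * c := by
  refine Fac.ind (P := fun g c => c < ww k → (k + 1) * len S g ≤ k * c) ?_ ?_ hc
  · intro _
    rw [len_one]
    simp
  · intro h c g d h1 h2 h3
    have h4 := h2 (by omega)
    have h5 : (k + 1) * len S h ≤ k * c := by
      rcases h1 with rfl | ⟨j, hj1, rfl, hj2⟩
      · nlinarith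
      · have hjk : j < k := ww_lt (by omega)
        exact (Nat.mul_le_mul_left _ (len_center_le hs hg hx hj2)).trans (aux2 hjk)
    calc (k + 1) * len S (h * g) ≤ (k + 1) * (len S h + len S g) :=
          Nat.mul_le_mul_left _ (len_mul hs hg h g)
      _ = (k + 1) * len S h + (k + 1) * len S g := by ring
      _ ≤ k * c + k * d := add_le_add h5 h4
      _ = k * (c + d) := by ring

/-- All the elements of the `k`-th ball have the same length. -/
theorem nrm_ball (hs : ∀ s ∈ S, s⁻¹ ∈ S) (hg : Subgroup.closure S = ⊤)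
    (hx : ∀ k, len S (x k) = NN k) {k : ℕ} (hk : 1 ≤ k) {y : G} (hy : len S y ≤ k) :
    nrm S x (x k * y) = ww k := by
  refine le_antisymm (nrm_le (Fac.of_cost (Or.inr ⟨k, hk, rfl, Or.inl ?_⟩))) ?_
  · rwa [inv_mul_cancel_left]
  · by_contra hlt
    have h1 := cheap_fac hs hg hx hk (nrm_spec (S := S) (x := x) (x k * y)) (not_le.1 hlt)
    have h2 := len_mul hs hg (x k * y) y⁻¹
    rw [mul_inv_cancel_right, hx, len_inv hs hg] at h2
    have h3 : NN k ≤ len S (x k * y) + k := by omega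
    have h4 : (k + 1) * NN k = k * ww k + (k + 1) * k := by
      unfold NN ww
      ring
    have h5 : k * nrm S x (x k * y) < k * ww k := Nat.mul_lt_mul_of_pos_left (not_le.1 hlt) hk
    have h6 : (k + 1) * NN k ≤ (k + 1) * (len S (x k * y) + k) := Nat.mul_le_mul_left _ h3
    nlinarith

end

/-- Let `G` be an infinite group generated by the finite symmetric set `S`. There is an integer
valued, left-invariant, proper metric `d` on `G` with `d_S ≤ d ≤ 2 d_S` (so quasi-isometric, even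
bi-Lipschitz, to the Cayley metric `d_S`) such that the zero function, which is bounded, is a
metric-functional in `∂(G,d)`. -/
theorem result {G : Type*} [Group G] [Infinite G] (S : Set G) (hf : S.Finite)
    (hs : ∀ s ∈ S, s⁻¹ ∈ S) (hg : Subgroup.closure S = ⊤) :
    ∃ d : G → G → ℝ, IsProperIntegerMetric d ∧
      (∀ x y, (wordDist S x y : ℝ) ≤ d x y ∧ d x y ≤ 2 * wordDist S x y) ∧
      (fun _ => (0 : ℝ)) ∈ boundary d := by
  have hex : ∀ k, ∃ g : G, len S g = NN k := fun k => exists_len_eq hf hs hg (NN k)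
  choose x hx using hex
  have hlow : ∀ g, len S g ≤ nrm S x g := fun g => len_le_fac hs hg hx (nrm_spec g)
  have hone : nrm S x (1 : G) = 0 := Nat.le_zero.1 (nrm_le Fac.one)
  have hinv : ∀ g, nrm S x g⁻¹ = nrm S x g := by
    intro g
    refine le_antisymm (nrm_le ((nrm_spec g).inv hs hg)) ?_
    have := nrm_le ((nrm_spec (S := S) (x := x) g⁻¹).inv hs hg)
    rwa [inv_inv] at this
  have hmul : ∀ g h, nrm S x (g * h) ≤ nrm S x g + nrm S x h :=
    fun g h => nrm_le ((nrm_spec g).mul (nrm_spec h))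
  refine ⟨fun g h => (nrm S x (g⁻¹ * h) : ℝ), ⟨?_, ?_, ?_, ?_, ?_, ?_, ?_⟩, ?_, ?_⟩
  · intro g
    simp [hone]
  · intro g h hgh
    have h0 : nrm S x (g⁻¹ * h) = 0 := by exact_mod_cast hgh
    have h1 := len_eq_zero hs hg (Nat.le_zero.1 ((hlow (g⁻¹ * h)).trans_eq h0))
    exact inv_mul_eq_one.1 h1
  · intro g h
    rw [← hinv (g⁻¹ * h), mul_inv_rev, inv_inv]
  · intro g h k
    have := hmul (g⁻¹ * h) (h⁻¹ * k)
    rw [mul_assoc, mul_inv_cancel_left] at this
    exact_mod_cast this
  · intro g h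
    exact ⟨(nrm S x (g⁻¹ * h) : ℤ), by simp⟩
  · intro g h k
    rw [mul_inv_rev, mul_assoc, inv_mul_cancel_left]
  · intro g r
    have h1 := (finite_ball hf hs hg ⌊r⌋₊).image (fun h => g * h)
    refine h1.subset ?_
    intro h hh
    refine ⟨g⁻¹ * h, ?_, mul_inv_cancel_left g h⟩
    have h2 : ((nrm S x (g⁻¹ * h) : ℕ) : ℝ) ≤ r := hh
    exact (hlow _).trans (Nat.le_floor h2)
  · intro g h
    rw [wordDist_eq]
    have h1 : ((len S (g⁻¹ * h) : ℕ) : ℝ) ≤ (nrm S x (g⁻¹ * h) : ℝ) := Nat.cast_le.2 (hlow _)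
    have h2 : ((nrm S x (g⁻¹ * h) : ℕ) : ℝ) ≤ ((2 * len S (g⁻¹ * h) : ℕ) : ℝ) :=
      Nat.cast_le.2 (nrm_le (Fac.of_cost (Or.inl rfl)))
    push_cast at h2
    exact ⟨h1, h2⟩
  · refine ⟨fun n => (x (n + 1))⁻¹, ?_, ?_⟩
    · rw [← Nat.cofinite_eq_atTop]
      refine Function.Injective.tendsto_cofinite ?_
      intro m n hmn
      have h1 : x (m + 1) = x (n + 1) := inv_injective hmn
      have h2 : NN (m + 1) = NN (n + 1) := by rw [← hx, ← hx, h1]
      have hmono : StrictMono fun k => NN (k + 1) := by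
        refine strictMono_nat_of_lt_succ fun k => ?_
        unfold NN
        nlinarith
      exact hmono.injective h2
    · intro y
      refine tendsto_const_nhds.congr' ?_
      filter_upwards [eventually_ge_atTop (len S y)] with n hn
      have h1 : nrm S x (x (n + 1) * y) = ww (n + 1) :=
        nrm_ball hs hg hx (by omega) (by omega)
      have h2 : nrm S x (x (n + 1) * 1) = ww (n + 1) :=
        nrm_ball hs hg hx (by omega) (by rw [len_one]; omega)
      simp only [b, inv_inv, h1, h2, sub_self]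

end Pool.Agent.Results.MP_25f285_al.ZeroFunctional
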